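import Mathlib
import Pool.Agent.Helper519.PiMain

set_option autoImplicit false

namespace Pool.Agent.Results.MP_ded7b1_an.NoPiBasis

open scoped Topology ENNReal
open Filter

noncomputable section

/-- The metric approximation property of the real or complex normed space `E`: for every compact
`K` and every `ε > 0` there is a finite-rank operator `T` on `E` of norm at most one with
`‖T x - x‖ < ε` for all `x` in `K`. -/
def HasMAP (𝕜 : Type*) [RCLike 𝕜] (E : Type*) [NormedAddCommGroup E] [NormedSpace 𝕜 E] : Prop :=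
  ∀ K : Set E, IsCompact K → ∀ ε : ℝ, 0 < ε → ∃ T : E →L[𝕜] E,
    FiniteDimensional 𝕜 (LinearMap.range (T : E →ₗ[𝕜] E)) ∧ ‖T‖ ≤ 1 ∧ ∀ x ∈ K, ‖T x - x‖ < ε

/-- The normed space `X` has a `π_Λ`-basis: there are finite-rank projections `u n` on `X` with
`u n x → x` for every `x`, with `u m ∘ u n = u n` whenever `n ≤ m`, and with `‖u n‖ ≤ Λ`. -/
def HasPiBasis (𝕜 : Type*) [RCLike 𝕜] (X : Type*) [NormedAddCommGroup X] [NormedSpace 𝕜 X]
    (Λ : ℝ) : Prop :=
  ∃ u : ℕ → X →L[𝕜] X,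
    (∀ n, FiniteDimensional 𝕜 (LinearMap.range (u n : X →ₗ[𝕜] X))) ∧
    (∀ n x, u n (u n x) = u n x) ∧
    (∀ x, Tendsto (fun n => u n x) atTop (𝓝 x)) ∧
    (∀ m n, n ≤ m → ∀ x, u m (u n x) = u n x) ∧
    ∀ n, ‖u n‖ ≤ Λ

open Pool.Agent.Helper519.Renorm

universe u

/-- A single statement for all `p`. -/
lemma obstruction {𝕜 : Type*} [RCLike 𝕜] {X : Type*} [NormedAddCommGroup X] [NormedSpace 𝕜 X]
    (B : BSys 𝕜 X) (p : ℝ≥0∞) [Fact (1 ≤ p)] : ∃ γ : ℝ, 0 < γ ∧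
    ∀ (Y : Type u) [NormedAddCommGroup Y] [NormedSpace 𝕜 Y]
      (P : WithLp p (NSp B × Y) →L[𝕜] WithLp p (NSp B × Y)),
      FiniteDimensional 𝕜 (LinearMap.range
        (P : WithLp p (NSp B × Y) →ₗ[𝕜] WithLp p (NSp B × Y))) →
      (∀ w, P (P w) = P w) → (∀ w, ‖P w‖ ≤ (1 + γ) * ‖w‖) →
      (∀ j < 4, B.N (PA P (B.x j) - B.x j) ≤ γ) → False := by
  by_cases hp : p = ∞
  · subst hp
    exact no_P_top B
  · exact no_P_finite B p hp

lemma no_piBasis {𝕜 : Type*} [RCLike 𝕜] {X : Type*} [NormedAddCommGroup X] [NormedSpace 𝕜 X]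
    (B : BSys 𝕜 X) (p : ℝ≥0∞) [Fact (1 ≤ p)] : ∃ ε : ℝ, 0 < ε ∧
    ∀ (Y : Type u) [NormedAddCommGroup Y] [NormedSpace 𝕜 Y],
      ¬ HasPiBasis 𝕜 (WithLp p (NSp B × Y)) (1 + ε) := by
  obtain ⟨γ, hγ, hob⟩ := obstruction.{u} B p
  refine ⟨γ, hγ, ?_⟩
  rintro Y _ _ ⟨u, hfin, huu, hlim, -, hnorm⟩
  have h1 : ∀ j, ∀ᶠ n in atTop, B.N (PA (u n) (B.x j) - B.x j) ≤ γ := by
    intro j
    have h2 := (Metric.tendsto_nhds.mp (hlim (inl B p Y (B.x j)))) γ hγ
    filter_upwards [h2] with n hn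
    rw [dist_eq_norm] at hn
    have h3 : B.N (PA (u n) (B.x j) - B.x j) =
        ‖(u n (inl B p Y (B.x j)) - inl B p Y (B.x j)).fst‖ := by
      rw [← norm_ψ, map_sub, ψ_PA, WithLp.sub_fst]
      rfl
    rw [h3]
    exact (WithLp.norm_fst_le _ _).trans hn.le
  have h2 : ∀ᶠ n in atTop, ∀ j < 4, B.N (PA (u n) (B.x j) - B.x j) ≤ γ := by
    have : ∀ᶠ n in atTop, ∀ j ∈ Finset.range 4, B.N (PA (u n) (B.x j) - B.x j) ≤ γ := by
      rw [Filter.eventually_all_finset]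
      exact fun j _ => h1 j
    filter_upwards [this] with n hn j hj
    exact hn j (Finset.mem_range.mpr hj)
  obtain ⟨n, hn⟩ := h2.exists
  exact hob Y (u n) (hfin n) (huu n) (fun w => (u n).le_of_opNorm_le (hnorm n) w) hn

/-- There is a separable Banach space `E` (a renorming of `ℓ²`) with the metric approximation
property such that, for every `1 ≤ p ≤ ∞`, there is `ε > 0` such that the `ℓ^p`-sum of `E` with
any normed space `Y` (in particular with `Y = C_p`) has no `π_{1+ε}`-basis. -/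
theorem result (𝕜 : Type) [RCLike 𝕜] :
    ∃ (E : Type) (_ : NormedAddCommGroup E) (_ : NormedSpace 𝕜 E),
      CompleteSpace E ∧ TopologicalSpace.SeparableSpace E ∧
      Nonempty (E ≃L[𝕜] lp (fun _ : ℕ => 𝕜) 2) ∧ HasMAP 𝕜 E ∧
      ∀ (p : ℝ≥0∞) [Fact (1 ≤ p)], ∃ ε : ℝ, 0 < ε ∧
        ∀ (Y : Type) [NormedAddCommGroup Y] [NormedSpace 𝕜 Y],
          ¬ HasPiBasis 𝕜 (WithLp p (E × Y)) (1 + ε) := by
  let b : HilbertBasis ℕ 𝕜 (lp (fun _ : ℕ => 𝕜) 2) := default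
  have hsep : TopologicalSpace.SeparableSpace (lp (fun _ : ℕ => 𝕜) 2) := by
    rw [← TopologicalSpace.isSeparable_univ_iff]
    have h1 : TopologicalSpace.IsSeparable
        (Submodule.span 𝕜 (Set.range b) : Set (lp (fun _ : ℕ => 𝕜) 2)) :=
      (Set.countable_range b).isSeparable.span
    have h2 := h1.closure
    have h3 : closure (Submodule.span 𝕜 (Set.range b) : Set (lp (fun _ : ℕ => 𝕜) 2)) =
        Set.univ := by
      rw [← Submodule.topologicalClosure_coe, b.dense_span]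
      rfl
    rwa [h3] at h2
  refine ⟨NSp (hsys b), inferInstance, inferInstance, inferInstance, inferInstance,
    ⟨(Ψ (hsys b)).symm⟩, hasMAP_hsys b, ?_⟩
  intro p _
  exact no_piBasis (hsys b) p

end

end Pool.Agent.Results.MP_ded7b1_an.NoPiBasis
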